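import Pool.Agent.H92.SF.LUT

/-!
# MP_70ba79_ag, THEOREM S, row CPC: coprime polynomials stay coprime on the pencil
-/

set_option autoImplicit false

namespace Pool.Agent.H37.SFU

open MvPolynomial
open Pool.Agent.H84.SM (dp cr dt)
open Pool.Agent.H3.SF Pool.Agent.H92.SF

/-- expansion in the last variable -/
private theorem coeff_top {k S : Type} [Field k] [CommRing S] [Algebra k S] (a b : S) (h : ℕ)
    (f : MvPolynomial (Fin 3) k) (hf : f.IsHomogeneous h) :
    (aeval ![Polynomial.C a, Polynomial.C b, Polynomial.X] f : Polynomial S).coeff h =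
      algebraMap k S (f.coeff (Finsupp.single 2 h)) ∧
    (aeval ![Polynomial.C a, Polynomial.C b, Polynomial.X] f : Polynomial S).natDegree ≤ h := by
  classical
  have hdeg : ∀ m ∈ f.support, m 0 + m 1 + m 2 = h := by
    intro m hm
    rw [mem_support_iff] at hm
    have h2 := hf hm
    rw [Finsupp.weight_apply, Finsupp.sum_fintype _ _ (by simp)] at h2
    simpa [Fin.sum_univ_three] using h2
  have hexp : (aeval ![Polynomial.C a, Polynomial.C b, Polynomial.X] f : Polynomial S) =
      ∑ m ∈ f.support, Polynomial.C (algebraMap k S (f.coeff m) * a ^ m 0 * b ^ m 1) *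
        Polynomial.X ^ m 2 := by
    rw [aeval_def, eval₂_eq']
    refine Finset.sum_congr rfl fun m _ => ?_
    rw [Fin.prod_univ_three, Polynomial.algebraMap_apply]
    simp [mul_assoc]
  constructor
  · rw [hexp, Polynomial.finsetSum_coeff, Finset.sum_eq_single (Finsupp.single 2 h)]
    · rw [Polynomial.coeff_C_mul_X_pow]
      simp
    · intro m hm hne
      rw [Polynomial.coeff_C_mul_X_pow, if_neg]
      intro h1
      apply hne
      have h2 := hdeg m hm
      ext i
      fin_cases i
      · simp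
        omega
      · simp
        omega
      · simp
        omega
    · intro hn
      rw [notMem_support_iff.1 hn]
      simp
  · rw [hexp]
    refine Polynomial.natDegree_sum_le_of_forall_le _ _ fun m hm => ?_
    refine (Polynomial.natDegree_C_mul_X_pow_le _ _).trans ?_
    have := hdeg m hm
    omega

private theorem elim {k : Type} [Field k] (h : ℕ) (A H : MvPolynomial (Fin 3) k)
    (hH : H.IsHomogeneous h) (hc : H.coeff (Finsupp.single 2 h) ≠ 0) (hAH : IsRelPrime A H) :
    ∃ (U W : MvPolynomial (Fin 3) k) (Q : MvPolynomial (Fin 2) k), Q ≠ 0 ∧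
      U * A + W * H = aeval ![X 0, X 1] Q := by
  classical
  obtain ⟨ι, hι⟩ : ∃ ι : MvPolynomial (Fin 2) k →ₐ[k] MvPolynomial (Fin 3) k,
    ι = aeval ![X 0, X 1] := ⟨_, rfl⟩
  obtain ⟨q, hq⟩ : ∃ q : MvPolynomial (Fin 3) k →+* (MvPolynomial (Fin 3) k ⧸ Ideal.span {H}),
    q = Ideal.Quotient.mk _ := ⟨_, rfl⟩
  have hι0 : ι (X 0) = X 0 := by rw [hι]; simp
  have hι1 : ι (X 1) = X 1 := by rw [hι]; simp
  have hX2 : (q.comp (ι : MvPolynomial (Fin 2) k →+* MvPolynomial (Fin 3) k)).IsIntegralElem
      (q (X 2)) := by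
    obtain ⟨P, hP⟩ : ∃ P : Polynomial (MvPolynomial (Fin 2) k),
      P = aeval ![Polynomial.C (X 0), Polynomial.C (X 1), Polynomial.X] H := ⟨_, rfl⟩
    obtain ⟨hP1, hP2⟩ := coeff_top (X 0 : MvPolynomial (Fin 2) k) (X 1) h H hH
    rw [← hP] at hP1 hP2
    refine ⟨Polynomial.C (C (H.coeff (Finsupp.single 2 h))⁻¹) * P, ?_, ?_⟩
    · refine Polynomial.monic_of_natDegree_le_of_coeff_eq_one h
        ((Polynomial.natDegree_C_mul_le _ _).trans hP2) ?_
      rw [Polynomial.coeff_C_mul, hP1, algebraMap_eq, ← C_mul, inv_mul_cancel₀ hc, C_1]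
    · have h1 : Polynomial.eval₂ (ι : MvPolynomial (Fin 2) k →+* MvPolynomial (Fin 3) k) (X 2) P =
          H := by
        have h2 : ((Polynomial.eval₂RingHom (ι : MvPolynomial (Fin 2) k →+*
            MvPolynomial (Fin 3) k) (X 2)).comp
            (aeval ![Polynomial.C (X 0), Polynomial.C (X 1), Polynomial.X] :
              MvPolynomial (Fin 3) k →ₐ[k] Polynomial (MvPolynomial (Fin 2) k)).toRingHom) =
            RingHom.id _ := by
          apply MvPolynomial.ringHom_ext
          · intro r
            simp [Polynomial.algebraMap_apply]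
          · intro i
            fin_cases i <;> simp [hι0, hι1]
        have h3 := RingHom.congr_fun h2 H
        rw [hP]
        exact h3
      rw [Polynomial.eval₂_mul, ← Polynomial.hom_eval₂ P, h1]
      have h4 : q H = 0 := by
        rw [hq, Ideal.Quotient.eq_zero_iff_mem]
        exact Ideal.mem_span_singleton_self H
      rw [h4, mul_zero]
  have hint : ∀ f : MvPolynomial (Fin 3) k,
      (q.comp (ι : MvPolynomial (Fin 2) k →+* MvPolynomial (Fin 3) k)).IsIntegralElem (q f) := by
    intro f
    induction f using MvPolynomial.induction_on with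
    | C a =>
      have h1 := (q.comp (ι : MvPolynomial (Fin 2) k →+* MvPolynomial (Fin 3) k)).isIntegralElem_map
        (x := C a)
      have h2 : ι (C a) = C a := by rw [hι]; simp
      rw [RingHom.comp_apply, RingHom.coe_coe, h2] at h1
      exact h1
    | add f g hf hg =>
      rw [map_add]
      exact RingHom.IsIntegralElem.add _ hf hg
    | mul_X f i hf =>
      rw [map_mul]
      refine RingHom.IsIntegralElem.mul _ hf ?_
      fin_cases i
      · have h1 := (q.comp (ι : MvPolynomial (Fin 2) k →+*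
          MvPolynomial (Fin 3) k)).isIntegralElem_map (x := X 0)
        rw [RingHom.comp_apply, RingHom.coe_coe, hι0] at h1
        exact h1
      · have h1 := (q.comp (ι : MvPolynomial (Fin 2) k →+*
          MvPolynomial (Fin 3) k)).isIntegralElem_map (x := X 1)
        rw [RingHom.comp_apply, RingHom.coe_coe, hι1] at h1
        exact h1
      · exact hX2
  have hex : ∃ n : ℕ, ∃ P : Polynomial (MvPolynomial (Fin 2) k), P.Monic ∧ P.natDegree = n ∧
      H ∣ Polynomial.eval₂ (ι : MvPolynomial (Fin 2) k →+* MvPolynomial (Fin 3) k) A P := by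
    obtain ⟨P, hP, hPA⟩ := hint A
    refine ⟨P.natDegree, P, hP, rfl, ?_⟩
    rw [← Polynomial.hom_eval₂, hq, Ideal.Quotient.eq_zero_iff_mem,
      Ideal.mem_span_singleton] at hPA
    exact hPA
  obtain ⟨P, hP, hPn, hPH⟩ := Nat.find_spec hex
  have hdec := Polynomial.divX_mul_X_add P
  have hev : Polynomial.eval₂ (ι : MvPolynomial (Fin 2) k →+* MvPolynomial (Fin 3) k) A P.divX * A +
      ι (P.coeff 0) =
      Polynomial.eval₂ (ι : MvPolynomial (Fin 2) k →+* MvPolynomial (Fin 3) k) A P := by
    conv_rhs => rw [← hdec]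
    rw [Polynomial.eval₂_add, Polynomial.eval₂_mul, Polynomial.eval₂_X, Polynomial.eval₂_C]
    rfl
  have h0 : P.coeff 0 ≠ 0 := by
    intro h0
    rcases Nat.eq_zero_or_pos P.natDegree with hn | hn
    · have h1 := hP.coeff_natDegree
      rw [hn, h0] at h1
      exact zero_ne_one h1
    · rw [h0, map_zero, add_zero] at hev
      rw [← hev] at hPH
      have h2 : H ∣ Polynomial.eval₂ (ι : MvPolynomial (Fin 2) k →+* MvPolynomial (Fin 3) k) A
          P.divX := hAH.symm.dvd_of_dvd_mul_right hPH
      have h3 : P.divX.Monic := by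
        refine Polynomial.monic_of_natDegree_le_of_coeff_eq_one (P.natDegree - 1) ?_ ?_
        · rw [Polynomial.natDegree_divX_eq_natDegree_tsub_one]
        · rw [Polynomial.coeff_divX, Nat.sub_add_cancel hn]
          exact hP.coeff_natDegree
      have h4 := Nat.find_min' hex ⟨P.divX, h3, rfl, h2⟩
      rw [Polynomial.natDegree_divX_eq_natDegree_tsub_one, ← hPn] at h4
      omega
  obtain ⟨W, hW⟩ := hPH
  refine ⟨-Polynomial.eval₂ (ι : MvPolynomial (Fin 2) k →+* MvPolynomial (Fin 3) k) A P.divX, W,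
    P.coeff 0, h0, ?_⟩
  rw [← hι]
  rw [hW] at hev
  linear_combination -hev

private theorem q_ne {k L : Type} [Field k] [Field L] [Algebra k L] (t : L)
    (ht : Transcendental k t) (Q : MvPolynomial (Fin 2) k) (hQ : Q ≠ 0) :
    aeval ![(X 0 : MvPolynomial (Fin 1) L), C t * X 0] Q ≠ 0 := by
  classical
  intro h0
  obtain ⟨m, hm⟩ := MvPolynomial.ne_zero_iff.1 hQ
  obtain ⟨P, hPd⟩ : ∃ P : Polynomial k, P = ∑ m' ∈ Q.support.filter
    (fun m' => m' 0 + m' 1 = m 0 + m 1), Polynomial.monomial (m' 1) (Q.coeff m') := ⟨_, rfl⟩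
  have hP : P ≠ 0 := by
    intro h
    have h1 := congrArg (fun p => Polynomial.coeff p (m 1)) h
    simp only [Polynomial.coeff_zero] at h1
    rw [hPd, Polynomial.finsetSum_coeff, Finset.sum_eq_single m] at h1
    · rw [Polynomial.coeff_monomial, if_pos rfl] at h1
      exact hm h1
    · intro m' hm' hne
      rw [Polynomial.coeff_monomial, if_neg]
      intro h2
      rw [Finset.mem_filter] at hm'
      apply hne
      ext i
      fin_cases i
      · simp
        omega
      · simp
        omega
    · intro hn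
      exfalso
      apply hn
      rw [Finset.mem_filter, mem_support_iff]
      exact ⟨hm, rfl⟩
  rw [transcendental_iff] at ht
  apply hP
  apply ht P
  have h1 := congrArg (coeff (Finsupp.single 0 (m 0 + m 1))) h0
  rw [coeff_zero, aeval_def, eval₂_eq', coeff_sum] at h1
  rw [hPd, map_sum, Finset.sum_filter]
  refine (Finset.sum_congr rfl fun m' _ => ?_).trans h1
  have h2 : (algebraMap k (MvPolynomial (Fin 1) L)) (Q.coeff m') *
      ∏ i : Fin 2, (![(X 0 : MvPolynomial (Fin 1) L), C t * X 0] i) ^ m' i =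
      C (algebraMap k L (Q.coeff m') * t ^ m' 1) * X 0 ^ (m' 0 + m' 1) := by
    rw [Fin.prod_univ_two, MvPolynomial.algebraMap_apply]
    simp only [Matrix.cons_val_zero, Matrix.cons_val_one, C_mul, C_pow]
    ring
  rw [h2, coeff_C_mul, coeff_X_pow]
  split_ifs with h3 h4 h4
  · rw [Polynomial.aeval_monomial, mul_one]
  · exact absurd (by rw [h3]) h4
  · exfalso
    apply h3
    have := congrArg (fun s : Fin 1 →₀ ℕ => s 0) h4
    simpa using this
  · rw [mul_zero]

theorem pf_CPC : T_CPC := by
  classical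
  intro k L _ _ _ t ht h A H hH hc hAH p hpA hpH
  obtain ⟨U, W, Q, hQ, hUW⟩ := elim h A H hH hc hAH
  obtain ⟨e, he⟩ : ∃ e : MvPolynomial (Fin 2) L ≃ₐ[L] Polynomial (MvPolynomial (Fin 1) L),
    e = (renameEquiv L (Equiv.swap 0 1)).trans (finSuccEquiv L 1) := ⟨_, rfl⟩
  have e0 : e (X 0) = Polynomial.C (X 0) := by
    rw [he, AlgEquiv.trans_apply, renameEquiv_apply, rename_X, Equiv.swap_apply_left]
    exact finSuccEquiv_X_succ (j := (0 : Fin 1))
  have e1 : e (X 1) = Polynomial.X := by
    rw [he, AlgEquiv.trans_apply, renameEquiv_apply, rename_X, Equiv.swap_apply_right]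
    exact finSuccEquiv_X_zero
  have eC : ∀ c : L, e (C c) = Polynomial.C (C c) := fun c => e.commutes c
  have hes : ∀ f : MvPolynomial (Fin 3) k, e (sp t f) =
      aeval ![Polynomial.C (X 0 : MvPolynomial (Fin 1) L), Polynomial.C (C t * X 0),
        Polynomial.X] f := by
    intro f
    have h1 : ((e : MvPolynomial (Fin 2) L →ₐ[L] Polynomial (MvPolynomial (Fin 1) L)).restrictScalars
        k).comp (sp t) = aeval ![Polynomial.C (X 0 : MvPolynomial (Fin 1) L),
          Polynomial.C (C t * X 0), Polynomial.X] := by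
      apply MvPolynomial.algHom_ext
      intro i
      fin_cases i
      · simp [sp, e0]
      · simp [sp, e0, eC]
      · simp [sp, e1]
    exact AlgHom.congr_fun h1 f
  have h1 : p ∣ sp t (aeval ![X 0, X 1] Q : MvPolynomial (Fin 3) k) := by
    rw [← hUW, map_add, map_mul, map_mul]
    exact dvd_add (hpA.mul_left _) (hpH.mul_left _)
  have h2 : e (sp t (aeval ![X 0, X 1] Q : MvPolynomial (Fin 3) k)) =
      Polynomial.C (aeval ![(X 0 : MvPolynomial (Fin 1) L), C t * X 0] Q) := by
    rw [hes]
    have h3 : (aeval ![Polynomial.C (X 0 : MvPolynomial (Fin 1) L), Polynomial.C (C t * X 0),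
        Polynomial.X] : MvPolynomial (Fin 3) k →ₐ[k] Polynomial (MvPolynomial (Fin 1) L)).comp
        (aeval ![X 0, X 1]) = ((Polynomial.CAlgHom : MvPolynomial (Fin 1) L →ₐ[MvPolynomial (Fin 1) L]
          Polynomial (MvPolynomial (Fin 1) L)).restrictScalars k).comp
          (aeval ![(X 0 : MvPolynomial (Fin 1) L), C t * X 0]) := by
      apply MvPolynomial.algHom_ext
      intro i
      fin_cases i
      · simp
      · simp
    exact AlgHom.congr_fun h3 Q
  have h3 : e p ∣ Polynomial.C (aeval ![(X 0 : MvPolynomial (Fin 1) L), C t * X 0] Q) := by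
    rw [← h2]
    exact map_dvd e h1
  have hne := q_ne t ht Q hQ
  have h4 : (e p).natDegree = 0 := by
    have := Polynomial.natDegree_le_of_dvd h3 (Polynomial.C_ne_zero.2 hne)
    rw [Polynomial.natDegree_C] at this
    omega
  obtain ⟨p0, hp0⟩ : ∃ p0, e p = Polynomial.C p0 :=
    ⟨_, Polynomial.eq_C_of_natDegree_eq_zero h4⟩
  have h5 : e p ∣ e (sp t H) := map_dvd e hpH
  rw [hp0, hes, Polynomial.C_dvd_iff_dvd_coeff] at h5
  have h6 := h5 h
  rw [(coeff_top (X 0 : MvPolynomial (Fin 1) L) (C t * X 0) h H hH).1] at h6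
  have h7 : IsUnit (algebraMap k (MvPolynomial (Fin 1) L) (H.coeff (Finsupp.single 2 h))) :=
    (IsUnit.mk0 _ hc).map _
  have h8 : IsUnit (e p) := by
    rw [hp0]
    exact (isUnit_of_dvd_unit h6 h7).map Polynomial.C
  have h9 := h8.map e.symm
  rwa [e.symm_apply_apply] at h9

end Pool.Agent.H37.SFU
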